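import Pool.Agent.Helper70.DK.Defs

/-! Module CLAIM: induction on the rank. -/

namespace Pool.Agent.Helper70.DK

open Finset

lemma claim_sum_mul (f : ℕ → ℝ) (N M : ℕ) :
    ∑ i ∈ range (N * M), f i = ∑ q ∈ range N, ∑ j ∈ range M, f (q * M + j) := by
  induction N with
  | zero => simp
  | succ n ih => rw [Nat.succ_mul, Finset.sum_range_add, ih, Finset.sum_range_succ]

lemma claim_card (p : ℕ → Prop) [DecidablePred p] (n : ℕ) :
    (((range n).filter p).card : ℝ) = ∑ i ∈ range n, if p i then (1 : ℝ) else 0 := by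
  rw [Finset.sum_boole]

/-- Markov's inequality for the descendants of a node -/
lemma claim_markov (p : ℕ → Prop) [DecidablePred p] (r : ℕ → Prop) [DecidablePred r] (N M : ℕ)
    (x : ℝ)
    (hr : ∀ q < N, r q → x * M < (((range M).filter (fun j => p (q * M + j))).card : ℝ)) :
    x * M * (((range N).filter r).card : ℝ) ≤ (((range (N * M)).filter p).card : ℝ) := by
  rw [claim_card p, claim_sum_mul, claim_card r, Finset.mul_sum]
  refine Finset.sum_le_sum fun q hq => ?_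
  rw [Finset.mem_range] at hq
  rw [← claim_card (fun j => p (q * M + j))]
  by_cases h : r q
  · rw [if_pos h, mul_one]
    exact (hr q hq h).le
  · rw [if_neg h, mul_zero]
    exact Nat.cast_nonneg _

lemma claim_avg (e : ℕ → ℕ → ℝ) (he : ∀ a q, (e a (2 * q) + e a (2 * q + 1)) / 2 ≤ e (a + 1) q)
    (b d q : ℕ) : (∑ j ∈ range (2 ^ d), e b (q * 2 ^ d + j)) / 2 ^ d ≤ e (b + d) q := by
  induction d generalizing q with
  | zero => simp
  | succ d ih =>
    have h1 : ∑ j ∈ range (2 ^ (d + 1)), e b (q * 2 ^ (d + 1) + j) =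
        (∑ j ∈ range (2 ^ d), e b ((2 * q) * 2 ^ d + j)) +
        ∑ j ∈ range (2 ^ d), e b ((2 * q + 1) * 2 ^ d + j) := by
      rw [show 2 ^ (d + 1) = 2 ^ d + 2 ^ d by ring, Finset.sum_range_add]
      congr 1
      · refine Finset.sum_congr rfl fun j _ => ?_
        congr 1
        ring
      · refine Finset.sum_congr rfl fun j _ => ?_
        congr 1
        ring
    rw [h1]
    have h2 := ih (2 * q)
    have h3 := ih (2 * q + 1)
    have h4 := he (b + d) q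
    have h5 : ((∑ j ∈ range (2 ^ d), e b ((2 * q) * 2 ^ d + j)) +
        ∑ j ∈ range (2 ^ d), e b ((2 * q + 1) * 2 ^ d + j)) / 2 ^ (d + 1) =
        ((∑ j ∈ range (2 ^ d), e b ((2 * q) * 2 ^ d + j)) / 2 ^ d +
        (∑ j ∈ range (2 ^ d), e b ((2 * q + 1) * 2 ^ d + j)) / 2 ^ d) / 2 := by
      rw [pow_succ]
      field_simp
    rw [h5, show b + (d + 1) = b + d + 1 by ring]
    linarith

lemma claim_cc_nonneg (m B : ℕ) (R : ℝ) (hR : 0 ≤ R) : 0 ≤ cc m B R := by
  unfold cc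
  have h : (0 : ℝ) ≤ 4 * m * (R + B) := by positivity
  exact mul_nonneg (Nat.cast_nonneg _) (Real.log_nonneg (by linarith))

lemma claim_logB (B : ℕ) (hB : 2 ≤ B) : 0 < Real.log (B : ℝ) :=
  Real.log_pos (by exact_mod_cast (by omega : 1 < B))

lemma claim_ee_super (hSUP : ST_SUP) {m B : ℕ} {R t : ℝ} {ι : Type} [Fintype ι] [Nonempty ι]
    (σ : Sys m ι) (k : ℕ) (hm : 1 ≤ m) (hB : 2 ≤ B) (hR : 0 ≤ R) (ht : 0 ≤ t) (ht1 : t ≤ 1)
    (hok : σ.Ok B R) (hk : k ≤ m) (a q : ℕ) :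
    (σ.ee B R t k a (2 * q) + σ.ee B R t k a (2 * q + 1)) / 2 ≤ σ.ee B R t k (a + 1) q := by
  obtain ⟨-, -, h, -⟩ := hSUP m B R t ι σ k hm hB hR ht ht1 hok hk
  have h1 := h (q * 2 ^ (a + 1)) (2 ^ a) (2 ^ a)
  have hL := claim_logB B hB
  unfold Sys.ee
  rw [show 2 * q * 2 ^ a = q * 2 ^ (a + 1) by ring,
    show (2 * q + 1) * 2 ^ a = q * 2 ^ (a + 1) + 2 ^ a by ring]
  rw [show 2 ^ a + 2 ^ a = 2 ^ (a + 1) by ring] at h1
  have h2 : ((σ.GG B t k (q * 2 ^ (a + 1)) (2 ^ a) - cc m B R) / (2 ^ a * Real.log B) +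
      (σ.GG B t k (q * 2 ^ (a + 1) + 2 ^ a) (2 ^ a) - cc m B R) / (2 ^ a * Real.log B)) / 2 =
      (σ.GG B t k (q * 2 ^ (a + 1)) (2 ^ a) + σ.GG B t k (q * 2 ^ (a + 1) + 2 ^ a) (2 ^ a) -
        cc m B R - cc m B R) / (2 ^ (a + 1) * Real.log B) := by
    rw [pow_succ]
    field_simp
    ring
  rw [h2]
  exact div_le_div_of_nonneg_right (by linarith) (by positivity)

lemma claim_ee_bounds (hSUP : ST_SUP) {m B : ℕ} {R t : ℝ} {ι : Type} [Fintype ι] [Nonempty ι]
    (σ : Sys m ι) (k : ℕ) (hm : 1 ≤ m) (hB : 2 ≤ B) (hR : 0 ≤ R) (ht : 0 ≤ t) (ht1 : t ≤ 1)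
    (hok : σ.Ok B R) (hk : k ≤ m) (a q : ℕ) :
    -(cc m B R / (2 ^ a * Real.log B)) ≤ σ.ee B R t k a q ∧ σ.ee B R t k a q ≤ k := by
  obtain ⟨-, -, -, h, -⟩ := hSUP m B R t ι σ k hm hB hR ht ht1 hok hk
  have h1 := h (q * 2 ^ a) (2 ^ a)
  have hL := claim_logB B hB
  have hpos : (0 : ℝ) < 2 ^ a * Real.log B := by positivity
  unfold Sys.ee
  constructor
  · rw [← neg_div]
    exact div_le_div_of_nonneg_right (by linarith [h1.1]) hpos.le
  · rw [div_le_iff₀ hpos]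
    have := h1.2
    push_cast at this
    linarith

lemma claim_thresh (m B : ℕ) (R x : ℝ) (hB : 2 ≤ B) (hR : 0 ≤ R) (hx : 0 < x) :
    ∃ a : ℕ, ∀ a', a ≤ a' → cc m B R / (2 ^ a' * Real.log B) ≤ x := by
  have hL := claim_logB B hB
  have hc := claim_cc_nonneg m B R hR
  obtain ⟨a, ha⟩ := pow_unbounded_of_one_lt (cc m B R / (x * Real.log B)) (one_lt_two)
  refine ⟨a, fun a' haa' => ?_⟩
  have h1 : (2 : ℝ) ^ a ≤ 2 ^ a' := pow_le_pow_right₀ one_le_two haa'
  rw [div_lt_iff₀ (by positivity)] at ha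
  rw [div_le_iff₀ (by positivity)]
  have h2 : (2 : ℝ) ^ a * (x * Real.log B) ≤ 2 ^ a' * (x * Real.log B) :=
    mul_le_mul_of_nonneg_right h1 (by positivity)
  linarith

/-- the conclusion of the step, for given constants -/
def claim_Body (m B μ k : ℕ) (R ε0 ε1 ε κ : ℝ) (a : ℕ) (η : ℝ) (c1 : ℕ) : Prop :=
  ∀ c, c1 ≤ c →
  ∀ (ι : Type) [Fintype ι] [Nonempty ι] (σ : Sys m ι) (t : ℝ) (q0 : ℕ), σ.Ok B R → 0 ≤ t → t ≤ 1 →
    σ.ee B R t (k + 1) (c + μ) q0 -
      (∑ j ∈ Finset.range (2 ^ μ), σ.ee B R t (k + 1) c (q0 * 2 ^ μ + j)) / 2 ^ μ ≤ η →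
    (∀ j < 2 ^ μ, |σ.ee B R t (k + 1) c (q0 * 2 ^ μ + j) - σ.ee B R t (k + 1) (c + μ) q0| ≤ ε) →
    (((Finset.range (2 ^ (c + μ - a))).filter (fun j => σ.ee B R t (k + 1) a (q0 * 2 ^ (c + μ - a) + j) <
      σ.ee B R t (k + 1) (c + μ) q0 - ε)).card : ℝ) ≤ κ * 2 ^ (c + μ - a) →
    σ.Good B ε0 t (2 ^ μ) (q0 * 2 ^ (c + μ)) (2 ^ c) →
    (((Finset.range (2 ^ (c + μ - a))).filter (fun j => σ.ee B R t k a (q0 * 2 ^ (c + μ - a) + j) <
      k - ε0 - ε)).card : ℝ) ≤ κ * 2 ^ (c + μ - a) →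
    k + 1 - ε0 - ε1 ≤ σ.ee B R t (k + 1) (c + μ) q0

/-- the upper levels -/
lemma claim_up (e : ℕ → ℕ → ℝ) (he : ∀ a q, (e a (2 * q) + e a (2 * q + 1)) / 2 ≤ e (a + 1) q)
    (A b a' : ℕ) (g x0 β D : ℝ) (hba : b ≤ a') (haA : a' ≤ A) (hx0 : 0 < x0) (hD : 0 ≤ D)
    (hlow : ∀ q, g - D ≤ e b q)
    (hbad : (((range (2 ^ (A - b))).filter (fun q => e b q < g)).card : ℝ) ≤
      β * x0 * 2 ^ (A - b)) :
    (((range (2 ^ (A - a'))).filter (fun q => e a' q < g - D * x0)).card : ℝ) ≤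
      β * 2 ^ (A - a') := by
  have hpow : 2 ^ (A - b) = 2 ^ (A - a') * 2 ^ (a' - b) := by
    rw [← pow_add]
    congr 1
    omega
  have h1 := claim_markov (fun q => e b q < g) (fun q => e a' q < g - D * x0) (2 ^ (A - a'))
    (2 ^ (a' - b)) x0 (by
      intro q _ hq
      by_contra hcon
      push Not at hcon
      have h2 := claim_avg e he b (a' - b) q
      rw [show b + (a' - b) = a' by omega] at h2
      have h3 : ∑ j ∈ range (2 ^ (a' - b)), (g - D * (if e b (q * 2 ^ (a' - b) + j) < g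
          then (1 : ℝ) else 0)) ≤ ∑ j ∈ range (2 ^ (a' - b)), e b (q * 2 ^ (a' - b) + j) := by
        refine Finset.sum_le_sum fun j _ => ?_
        split_ifs with hj
        · have := hlow (q * 2 ^ (a' - b) + j)
          linarith
        · push Not at hj
          linarith
      rw [Finset.sum_sub_distrib, ← Finset.mul_sum, ← claim_card
        (fun j => e b (q * 2 ^ (a' - b) + j) < g), Finset.sum_const, Finset.card_range,
        nsmul_eq_mul] at h3
      have hP : (0 : ℝ) < 2 ^ (a' - b) := by positivity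
      rw [div_le_iff₀ hP] at h2
      push_cast at hcon h3
      have h4 : D * (((range (2 ^ (a' - b))).filter
          (fun j => e b (q * 2 ^ (a' - b) + j) < g)).card : ℝ) ≤ D * (x0 * 2 ^ (a' - b)) :=
        mul_le_mul_of_nonneg_left hcon hD
      have h5 : (g - D * x0) * 2 ^ (a' - b) ≤ e a' q * 2 ^ (a' - b) := by
        nlinarith
      have h6 := le_of_mul_le_mul_right h5 hP
      linarith)
  rw [← hpow] at h1
  have h2 := h1.trans hbad
  have h3 : (2 : ℝ) ^ (A - b) = 2 ^ (A - a') * 2 ^ (a' - b) := by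
    exact_mod_cast hpow
  rw [h3] at h2
  push_cast at h2
  have hP : (0 : ℝ) < x0 * 2 ^ (a' - b) := by positivity
  refine le_of_mul_le_mul_left ?_ hP
  linarith

/-- the bad nodes at the level of the step -/
lemma claim_level {m B μ k : ℕ} {R ε0 ε1 ε κ η t β1 ϑ β2 : ℝ} {a c1 c A : ℕ}
    (hbody : claim_Body m B μ k R ε0 ε1 ε κ a η c1) (hc : c1 ≤ c) (hac : a ≤ c) (hcA : c + μ ≤ A)
    {ι : Type} [Fintype ι] [Nonempty ι] (σ : Sys m ι) (hok : σ.Ok B R) (ht : 0 ≤ t) (ht1 : t ≤ 1)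
    (hκ : 0 < κ) (hϑ : ϑ * 2 ^ μ ≤ β1 / 5) (hβ2 : β2 ≤ κ * (β1 / 5))
    (hT : (((Finset.range (2 ^ (A - (c + μ)))).filter (fun q =>
        ¬ (σ.ee B R t (k + 1) (c + μ) q -
            (∑ j ∈ Finset.range (2 ^ μ), σ.ee B R t (k + 1) c (q * 2 ^ μ + j)) / 2 ^ μ ≤ η ∧
          (∀ j < 2 ^ μ, |σ.ee B R t (k + 1) c (q * 2 ^ μ + j) -
            σ.ee B R t (k + 1) (c + μ) q| ≤ ε) ∧
          (((Finset.range (2 ^ (c + μ - a))).filter (fun j =>
            σ.ee B R t (k + 1) a (q * 2 ^ (c + μ - a) + j) <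
            σ.ee B R t (k + 1) (c + μ) q - ε)).card : ℝ) ≤ κ * 2 ^ (c + μ - a)))).card : ℝ) ≤
            (β1 / 5) * 2 ^ (A - (c + μ)))
    (G : Finset ℕ) (hG : (G.card : ℝ) ≤ ϑ * 2 ^ (A - c))
    (hGm : ∀ q < 2 ^ (A - c), ¬ σ.Good B ε0 t (2 ^ μ) (q * 2 ^ c) (2 ^ c) → q ∈ G)
    (hk : (((range (2 ^ (A - a))).filter (fun q => σ.ee B R t k a q < k - ε0 - ε)).card : ℝ) ≤
      β2 * 2 ^ (A - a)) :
    (((range (2 ^ (A - (c + μ)))).filter (fun q => σ.ee B R t (k + 1) (c + μ) q <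
      k + 1 - ε0 - ε1)).card : ℝ) ≤ β1 * 2 ^ (A - (c + μ)) * (3 / 5) := by
  classical
  set TB := (Finset.range (2 ^ (A - (c + μ)))).filter (fun q =>
        ¬ (σ.ee B R t (k + 1) (c + μ) q -
            (∑ j ∈ Finset.range (2 ^ μ), σ.ee B R t (k + 1) c (q * 2 ^ μ + j)) / 2 ^ μ ≤ η ∧
          (∀ j < 2 ^ μ, |σ.ee B R t (k + 1) c (q * 2 ^ μ + j) -
            σ.ee B R t (k + 1) (c + μ) q| ≤ ε) ∧
          (((Finset.range (2 ^ (c + μ - a))).filter (fun j =>
            σ.ee B R t (k + 1) a (q * 2 ^ (c + μ - a) + j) <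
            σ.ee B R t (k + 1) (c + μ) q - ε)).card : ℝ) ≤ κ * 2 ^ (c + μ - a))) with hTB
  set GB := (Finset.range (2 ^ (A - (c + μ)))).filter (fun q => q * 2 ^ μ ∈ G) with hGB
  set RB := (Finset.range (2 ^ (A - (c + μ)))).filter (fun q => κ * 2 ^ (c + μ - a) <
    (((Finset.range (2 ^ (c + μ - a))).filter (fun j => σ.ee B R t k a (q * 2 ^ (c + μ - a) + j) <
      k - ε0 - ε)).card : ℝ)) with hRB
  have hsub : (range (2 ^ (A - (c + μ)))).filter (fun q => σ.ee B R t (k + 1) (c + μ) q <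
      k + 1 - ε0 - ε1) ⊆ TB ∪ (GB ∪ RB) := by
    intro q hq
    rw [Finset.mem_filter] at hq
    rw [Finset.mem_union, Finset.mem_union]
    by_contra hcon
    push Not at hcon
    obtain ⟨h1, h2, h3⟩ := hcon
    have hT1 : (σ.ee B R t (k + 1) (c + μ) q -
            (∑ j ∈ Finset.range (2 ^ μ), σ.ee B R t (k + 1) c (q * 2 ^ μ + j)) / 2 ^ μ ≤ η ∧
          (∀ j < 2 ^ μ, |σ.ee B R t (k + 1) c (q * 2 ^ μ + j) -
            σ.ee B R t (k + 1) (c + μ) q| ≤ ε) ∧
          (((Finset.range (2 ^ (c + μ - a))).filter (fun j =>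
            σ.ee B R t (k + 1) a (q * 2 ^ (c + μ - a) + j) <
            σ.ee B R t (k + 1) (c + μ) q - ε)).card : ℝ) ≤ κ * 2 ^ (c + μ - a)) := by
      by_contra hno
      exact h1 (Finset.mem_filter.mpr ⟨hq.1, hno⟩)
    have hG1 : σ.Good B ε0 t (2 ^ μ) (q * 2 ^ (c + μ)) (2 ^ c) := by
      by_contra hno
      apply h2
      rw [hGB, Finset.mem_filter]
      refine ⟨hq.1, hGm (q * 2 ^ μ) ?_ ?_⟩
      · have h4 := Finset.mem_range.mp hq.1
        calc q * 2 ^ μ < 2 ^ (A - (c + μ)) * 2 ^ μ := Nat.mul_lt_mul_of_pos_right h4 (by positivity)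
          _ = 2 ^ (A - c) := by
              rw [← pow_add]
              congr 1
              omega
      · rwa [show q * 2 ^ μ * 2 ^ c = q * 2 ^ (c + μ) by ring]
    have hR1 : (((Finset.range (2 ^ (c + μ - a))).filter (fun j =>
        σ.ee B R t k a (q * 2 ^ (c + μ - a) + j) < k - ε0 - ε)).card : ℝ) ≤
        κ * 2 ^ (c + μ - a) := by
      by_contra hno
      push Not at hno
      exact h3 (Finset.mem_filter.mpr ⟨hq.1, hno⟩)
    have h5 := hbody c hc ι σ t q hok ht ht1 hT1.1 hT1.2.1 hT1.2.2 hG1 hR1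
    linarith [hq.2]
  have hN : (0 : ℝ) < 2 ^ (A - (c + μ)) := by positivity
  have hGBc : (GB.card : ℝ) ≤ (β1 / 5) * 2 ^ (A - (c + μ)) := by
    have h1 : GB.card ≤ G.card := by
      refine Finset.card_le_card_of_injOn (fun q => q * 2 ^ μ) ?_ ?_
      · intro q hq
        exact (Finset.mem_filter.mp hq).2
      · intro q _ q' _ h
        exact Nat.eq_of_mul_eq_mul_right (by positivity) h
    have h2 : (GB.card : ℝ) ≤ ϑ * 2 ^ (A - c) := le_trans (by exact_mod_cast h1) hG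
    have h3 : (2 : ℝ) ^ (A - c) = 2 ^ μ * 2 ^ (A - (c + μ)) := by
      rw [← pow_add]
      congr 1
      omega
    rw [h3] at h2
    have h4 := mul_le_mul_of_nonneg_right hϑ hN.le
    linarith
  have hRBc : (RB.card : ℝ) ≤ (β1 / 5) * 2 ^ (A - (c + μ)) := by
    have h1 := claim_markov (fun q => σ.ee B R t k a q < k - ε0 - ε) (fun q =>
      κ * 2 ^ (c + μ - a) < (((Finset.range (2 ^ (c + μ - a))).filter (fun j =>
        σ.ee B R t k a (q * 2 ^ (c + μ - a) + j) < k - ε0 - ε)).card : ℝ)) (2 ^ (A - (c + μ)))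
      (2 ^ (c + μ - a)) κ (fun q _ h => by
        push_cast
        exact h)
    have h2 : 2 ^ (A - (c + μ)) * 2 ^ (c + μ - a) = 2 ^ (A - a) := by
      rw [← pow_add]
      congr 1
      omega
    rw [h2] at h1
    have h3 := h1.trans hk
    have h4 : (2 : ℝ) ^ (A - a) = 2 ^ (A - (c + μ)) * 2 ^ (c + μ - a) := by exact_mod_cast h2.symm
    rw [h4] at h3
    push_cast at h3
    have hM : (0 : ℝ) < 2 ^ (c + μ - a) := by positivity
    have h5 : β2 * (2 ^ (A - (c + μ)) * 2 ^ (c + μ - a)) ≤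
        κ * (β1 / 5) * (2 ^ (A - (c + μ)) * 2 ^ (c + μ - a)) :=
      mul_le_mul_of_nonneg_right hβ2 (by positivity)
    refine le_of_mul_le_mul_left (a := κ * 2 ^ (c + μ - a)) ?_ (by positivity)
    refine h3.trans (h5.trans (le_of_eq ?_))
    ring
  have hcard := Finset.card_le_card hsub
  have hu1 := Finset.card_union_le TB (GB ∪ RB)
  have hu2 := Finset.card_union_le GB RB
  have hall : (((range (2 ^ (A - (c + μ)))).filter (fun q => σ.ee B R t (k + 1) (c + μ) q <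
      k + 1 - ε0 - ε1)).card : ℝ) ≤ TB.card + (GB.card + RB.card) := by
    exact_mod_cast hcard.trans (hu1.trans (Nat.add_le_add_left hu2 _))
  linarith

theorem st_CLAIM (hSTEP : ST_STEP) (hTREE : ST_TREE) (hSUP : ST_SUP) : ST_CLAIM := by
  classical
  intro m B μ R ε0 hm hB hR hε0 hμ k
  induction k with
  | zero =>
    intro hk ε1 β hε1 hβ
    obtain ⟨a1, ha1⟩ := claim_thresh m B R (ε1 / 2) hB hR (by positivity)
    refine ⟨1, one_pos, fun c0 => ⟨max c0 a1, le_max_left _ _, ?_⟩⟩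
    intro A hA ι _ _ σ t hok ht ht1 _ a ha haA
    have h0 : (((Finset.range (2 ^ (A - a))).filter (fun q =>
        σ.ee B R t 0 a q < (0 : ℕ) - ε0 - ε1)).card : ℝ) = 0 := by
      rw [Nat.cast_eq_zero, Finset.card_eq_zero, Finset.filter_eq_empty_iff]
      intro q _ hq
      have h1 := (claim_ee_bounds hSUP σ 0 hm hB hR ht ht1 hok (Nat.zero_le m) a q).1
      have h2 := ha1 a ((le_max_right _ _).trans ha)
      push_cast at hq
      linarith
    have h3 : (0 : ℝ) ≤ β * 2 ^ (A - a) := by positivity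
    exact h0.le.trans h3
  | succ k ih =>
    intro hk ε1 β hε1 hβ
    obtain ⟨ε, κ, hε, hκ, a0', hS⟩ := hSTEP m B μ k R ε0 (ε1 / 2) hm hB hR hε0 hμ hk (by positivity)
    have hch : ∀ a, ∃ η : ℝ, 0 < η ∧ ∃ c1 : ℕ,
        a0' ≤ a → claim_Body m B μ k R ε0 (ε1 / 2) ε κ a η c1 := by
      intro a
      by_cases ha : a0' ≤ a
      · obtain ⟨η, hη, c1, -, h⟩ := hS a ha
        exact ⟨η, hη, c1, fun _ => h⟩
      · exact ⟨1, one_pos, 0, fun h => absurd h ha⟩
    choose η hη c1 hc1 using hch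
    set x0 : ℝ := ε1 / (4 * (m + 3)) with hx0
    have hx0p : 0 < x0 := by positivity
    have hβ1p : 0 < β * x0 := by positivity
    obtain ⟨ϑk, hϑk, hIH⟩ := ih (by omega) ε (κ * (β * x0 / 5)) hε (by positivity)
    refine ⟨min ϑk (β * x0 / (5 * 2 ^ μ)), lt_min hϑk (by positivity), fun c0 => ?_⟩
    obtain ⟨ak, hak, hIH2⟩ := hIH c0
    obtain ⟨ast, hast⟩ := claim_thresh m B R 1 hB hR one_pos
    obtain ⟨a1, ha1, hT⟩ := hTREE (m + 1) ε κ (β * x0 / 5) μ (max (max a0' ak) (max c0 ast)) η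
      (fun a => max (c1 a) c0) (by
        have : (0 : ℝ) ≤ m := Nat.cast_nonneg m
        linarith) hε hκ (by positivity) hμ hη
    have hs1 : a0' ≤ a1 := ((le_max_left _ _).trans (le_max_left _ _)).trans ha1
    have hs2 : ak ≤ a1 := ((le_max_right _ _).trans (le_max_left _ _)).trans ha1
    have hs3 : c0 ≤ a1 := ((le_max_left _ _).trans (le_max_right _ _)).trans ha1
    refine ⟨a1, hs3, ?_⟩
    intro A hA ι _ _ σ t hok ht ht1 hgood a' ha' ha'A
    have hIH3 := hIH2 A (hs2.trans hA) ι σ t hok ht ht1 (fun c hc1' hc2 =>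
      (hgood c hc1' (hc2.trans hs2)).trans
        (mul_le_mul_of_nonneg_right (min_le_left _ _) (by positivity)))
    have hsuper : ∀ a q, (σ.ee B R t (k + 1) a (2 * q) + σ.ee B R t (k + 1) a (2 * q + 1)) / 2 ≤
        σ.ee B R t (k + 1) (a + 1) q :=
      fun a q => claim_ee_super hSUP σ (k + 1) hm hB hR ht ht1 hok hk a q
    have hbd : ∀ a q, max (max a0' ak) (max c0 ast) ≤ a → -1 ≤ σ.ee B R t (k + 1) a q ∧
        σ.ee B R t (k + 1) a q ≤ m := by
      intro a q ha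
      have h1 := claim_ee_bounds hSUP σ (k + 1) hm hB hR ht ht1 hok hk a q
      have h2 := hast a (((le_max_right _ _).trans (le_max_right _ _)).trans ha)
      have h3 : (((k + 1 : ℕ)) : ℝ) ≤ m := by exact_mod_cast hk
      exact ⟨by linarith [h1.1], h1.2.trans h3⟩
    obtain ⟨a, c, ha, hac, hc1a, hcμ, hTb⟩ := hT A hA (fun a q => σ.ee B R t (k + 1) a q)
      (fun a q _ _ _ => hsuper a q) (fun a q ha _ _ => by
        have h1 := hbd a q ha
        rw [abs_le]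
        exact ⟨by
          have : (0 : ℝ) ≤ m := Nat.cast_nonneg m
          linarith [h1.1], by linarith [h1.2]⟩)
    have ht1' : a0' ≤ a := ((le_max_left _ _).trans (le_max_left _ _)).trans ha
    have ht2 : ak ≤ a := ((le_max_right _ _).trans (le_max_left _ _)).trans ha
    have hc0c : c0 ≤ c := (le_max_right _ _).trans hc1a
    have hc1c : c1 a ≤ c := (le_max_left _ _).trans hc1a
    have hcA : c + μ ≤ A := hcμ.trans hA
    have haA : a ≤ A := hac.trans ((Nat.le_add_right c μ).trans hcA)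
    have hg := hgood c hc0c ((Nat.le_add_right c μ).trans hcμ)
    have hlev := claim_level (hc1 a ht1') hc1c hac hcA σ hok ht ht1 hκ
      (ϑ := min ϑk (β * x0 / (5 * 2 ^ μ))) (β1 := β * x0) (β2 := κ * (β * x0 / 5)) (by
        have h1 : min ϑk (β * x0 / (5 * 2 ^ μ)) * 2 ^ μ ≤ β * x0 / (5 * 2 ^ μ) * 2 ^ μ :=
          mul_le_mul_of_nonneg_right (min_le_right _ _) (by positivity)
        refine h1.trans (le_of_eq ?_)
        field_simp) le_rfl hTb _ hg (fun q hq hng => by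
          rw [Finset.mem_filter]
          exact ⟨Finset.mem_range.mpr hq, hng⟩) (hIH3 a ht2 haA)
    have hb : max (max a0' ak) (max c0 ast) ≤ c + μ := by omega
    have hup := claim_up (fun a q => σ.ee B R t (k + 1) a q) hsuper A (c + μ) a'
      (k + 1 - ε0 - ε1 / 2) x0 β (m + 1) (hcμ.trans ha') ha'A hx0p (by positivity) (by
        intro q
        have h1 := (hbd (c + μ) q hb).1
        have h3 : (((k + 1 : ℕ)) : ℝ) ≤ m := by exact_mod_cast hk
        push_cast at h3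
        show (k : ℝ) + 1 - ε0 - ε1 / 2 - (m + 1) ≤ σ.ee B R t (k + 1) (c + μ) q
        linarith) (by
        refine hlev.trans ?_
        have : (0 : ℝ) ≤ β * x0 * 2 ^ (A - (c + μ)) := by positivity
        linarith)
    refine le_trans ?_ hup
    have hsub : (Finset.range (2 ^ (A - a'))).filter (fun q =>
        σ.ee B R t (k + 1) a' q < ((k + 1 : ℕ) : ℝ) - ε0 - ε1) ⊆
        (Finset.range (2 ^ (A - a'))).filter (fun q => σ.ee B R t (k + 1) a' q <
          k + 1 - ε0 - ε1 / 2 - (m + 1) * x0) := by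
      intro q hq
      rw [Finset.mem_filter] at hq ⊢
      refine ⟨hq.1, ?_⟩
      have h1 := hq.2
      push_cast at h1
      have h2 : ((m : ℝ) + 1) * x0 ≤ ε1 / 4 := by
        rw [hx0, mul_div_assoc', div_le_iff₀ (by positivity)]
        nlinarith
      linarith
    exact_mod_cast Finset.card_le_card hsub

end Pool.Agent.Helper70.DK
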